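import Pool.Agent.H21.DL.Main

/-!
# MP_dad754_lc: maximum independent set near dense graphs

Let `c = 1 + eps allG` be the best exponential base of maximum independent set on all graphs
(`eps allG` is the number `ε*` of the problem). Graphs are compared as in the theory of dense graph
limits: a fractional overlay of `G` (`n` vertices) and `F` (`m` vertices) is a nonnegative matrix
with row sums `1 / n` and column sums `1 / m`; `CutLe G F δ` and `EditLe G F δ` say that the cut
distance and the edit distance of `G` and `F` are at most `δ`. For a class `𝓕` of finite graphs,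
`nearC 𝓕 δ` and `nearE 𝓕 δ` are the classes of the graphs at cut distance, respectively edit
distance, at most `δ` from some member of `𝓕`. We prove the exact law

`1 + eps (nearC 𝓕 δ) → c ^ θ` and `1 + eps (nearE 𝓕 δ) → c ^ θ` as `δ → 0`,

`θ = theta 𝓕` the limit for `δ → 0` of the largest density `|C| / |F|` of a set `C` of vertices of a
member `F` of `𝓕` with at most `δ |F| ^ 2` ordered pairs of adjacent vertices. For a single graph
`F` the exponent is the independence number of `F` divided by the number of vertices.

Machine model: the structured stack programs `Prog` of `Pool.Agent.H80.Poly.Prog` (finitely many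
stacks of bits; push, pop, sequence, if and while testing the top of a stack; the cost `t` in
`Ex p S S' t` is the number of elementary steps). The set of the `e ≥ 0` with `InTime 𝒢 (1 + e)` is
nonempty for every class (`Pool.Agent.H66.MB.inTime_of_gt`), so `eps 𝒢` is a true infimum.
-/

set_option autoImplicit false

namespace Pool.Agent.Results.MP_dad754_lc.DenseLimit

open Filter Topology Pool.Agent.H66.MB Pool.Agent.H21.DL

/-- The best exponential base of maximum independent set on the graphs at cut distance (edit
distance) at most `δ` from a class `𝓕` tends to `(1 + ε*) ^ theta 𝓕` as `δ → 0`; for a single graph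
`F` with `m ≥ 1` vertices the exponent is `α(F) / m`. -/
theorem result :
    (∀ 𝓕 : Cls, (∃ (m : ℕ) (F : SimpleGraph (Fin m)), 0 < m ∧ 𝓕 m F) →
      Tendsto (fun δ : ℝ => 1 + eps (nearC 𝓕 δ)) (𝓝[>] 0) (𝓝 ((1 + eps allG) ^ theta 𝓕)) ∧
      Tendsto (fun δ : ℝ => 1 + eps (nearE 𝓕 δ)) (𝓝[>] 0) (𝓝 ((1 + eps allG) ^ theta 𝓕))) ∧
    (∀ (m : ℕ) (F : SimpleGraph (Fin m)), 0 < m →
      Tendsto (fun δ : ℝ => 1 + eps (fun _ G => CutLe G F δ)) (𝓝[>] 0)
        (𝓝 ((1 + eps allG) ^ ((F.indepNum : ℝ) / m))) ∧
      Tendsto (fun δ : ℝ => 1 + eps (fun _ G => EditLe G F δ)) (𝓝[>] 0)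
        (𝓝 ((1 + eps allG) ^ ((F.indepNum : ℝ) / m)))) :=
  ⟨fun _ h => ⟨law_cut h, law_edit h⟩, fun _ F hm => law_single hm F⟩

end Pool.Agent.Results.MP_dad754_lc.DenseLimit
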