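import Pool.Agent.H66.MB.Fin

/-!
# MP_dad754_lc: the exponential base of maximum independent set on nearly regular graphs

Let `c = 1 + eps allG` be the best exponential base of maximum independent set on all graphs
(`eps allG` is the number `ε*` of the problem). We prove the exact law

`1 + eps (degIn d κ) → c ^ (κ / (κ + 1))` as `d → ∞`, for every real `κ ≥ 1`,

where `degIn d κ` is the class of the graphs with all degrees between `d` and `κ d`. For `κ = 1`
these are the `d`-regular graphs, and the limit is the square root of `c`.

Upper bound: branching on the vertices with more than `D` neighbours has at most `(1 + η) ^ n`
leaves, and in a graph with degrees in `[d, κ d]` an induced subgraph of maximum degree at most `D`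
has at most `κ d n / (κ d + d - D)` vertices, by edge counting. Lower bound: from a graph `H` of
bounded degree on `N` vertices we construct a graph with degrees in `[d, κ d]` (exactly regular for
`κ = 1`) with about `N (1 + 1 / κ)` vertices: `m` cliques with `r` vertices, for every clique one
further vertex joined to all of it, and edges from the cliques to the rest, distributed cyclically
such that all degrees are right; its independence number is that of `H` plus `m`.

Machine model: the structured stack programs `Prog` of `Pool.Agent.H80.Poly.Prog` (finitely many
stacks of bits; the commands push, pop, sequence, if and while testing the top of a stack; the cost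
`t` in `Ex p S S' t` is the number of elementary steps). It simulates, and is simulated by, multitape
Turing machines with constant factor overhead. The set of the `e ≥ 0` with `InTime 𝒢 (1 + e)` is
nonempty for every class (`Pool.Agent.H66.MB.inTime_of_gt`), so `eps 𝒢` is a true infimum.
-/

set_option autoImplicit false

namespace Pool.Agent.Results.MP_dad754_lc.NearRegular

open Filter Topology Pool.Agent.H66.MB

/-- The best exponential base of maximum independent set on the graphs with all degrees in
`[d, κ d]` tends to `(1 + ε*) ^ (κ / (κ + 1))`. -/
theorem result (κ : ℝ) (hκ : 1 ≤ κ) :
    Tendsto (fun d : ℕ => 1 + eps (degIn d κ)) atTop (𝓝 ((1 + eps allG) ^ (κ / (κ + 1)))) :=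
  main κ hκ

end Pool.Agent.Results.MP_dad754_lc.NearRegular
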