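import Pool.Agent.H21.IR.Core
import Pool.Agent.H21.IR.Loc

/-!
# MP_dad754_lc: the independence ratio law for maximum independent set

Let `c = 1 + eps allG` be the best exponential base of maximum independent set on all graphs
(`eps allG` is the number `ε*` of the problem) and, for a class `𝒢` of graphs, let `ir 𝒢` be the
supremum of `|S| / n` for independent sets `S` of members of `𝒢` with `n ≥ 1` vertices. The law says:
if `𝒜 0 ⊇ 𝒜 1 ⊇ ...` are classes of graphs which are closed under disjoint copies (or under
blow-ups) and robust against changing a bounded number of pairs at every vertex, then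

`1 + eps (𝒜 i) → c ^ θ`, where `θ = lim ir (𝒜 i)`.

So on such classes the exponential base of maximum independent set depends only on the largest
independence ratio. Two cases in which `θ` is computed are part of the statement. Local
perturbations of an arbitrary class `𝓕` (`loc 𝓕 i`: change at most `deg v / (i + 1)` pairs at every
vertex `v` of a disjoint union of members of `𝓕` of minimum degree at least `i`): here `θ` is the limit
of the largest density of a set `U` of vertices of a member of `𝓕` of minimum degree at least `i` such
that every `u ∈ U` has at most `deg u / (i + 1)` neighbours in `U`. And graphs in which every set of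
vertices inducing a subgraph of maximum degree at most `D` has at most `θ n` elements
(`coreLe D θ`).

Upper bound: branching on the vertices of degree more than `D` costs a factor `(1 + η) ^ n`, and a
remaining induced subgraph of maximum degree at most `D` becomes independent after changing at most
`D` pairs at every vertex, so it has at most about `ir (𝒜 j) n` vertices. Lower bound: a graph of
bounded degree is written into the large independent set of a member of `𝒜 j` with many copies of
few types of vertices, with a cover number of the rest which is known in advance.

Machine model: the structured stack programs `Prog` of `Pool.Agent.H80.Poly.Prog` (finitely many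
stacks of bits; push, pop, sequence, if and while testing the top of a stack; the cost `t` in
`Ex p S S' t` is the number of elementary steps). The set of the `e ≥ 0` with `InTime 𝒢 (1 + e)` is
nonempty for every class (`Pool.Agent.H66.MB.inTime_of_gt`), so `eps 𝒢` is a true infimum.
-/

set_option autoImplicit false

namespace Pool.Agent.Results.MP_dad754_lc.RatioLaw

open Filter Topology Pool.Agent.H66.MB Pool.Agent.H21.IR

/-- The best exponential base of maximum independent set on the classes of a decreasing, robust
sequence of classes closed under copies or blow-ups tends to `(1 + ε*) ^ θ`, `θ` the limit of the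
largest independence ratios; with `θ` made explicit for the local perturbations of an arbitrary
class and for the graphs without large induced subgraphs of bounded degree. -/
theorem result :
    (∀ 𝒜 : ℕ → Cls, (∀ i n G, 𝒜 (i + 1) n G → 𝒜 i n G) → (∀ i, Mult (𝒜 i)) → Robust 𝒜 →
      ∃ θ : ℝ, Tendsto (fun i => ir (𝒜 i)) atTop (𝓝 θ) ∧
        Tendsto (fun i => 1 + eps (𝒜 i)) atTop (𝓝 ((1 + eps allG) ^ θ))) ∧
    (∀ 𝓕 : Cls, ∃ θ : ℝ, Tendsto (fun i => lir 𝓕 i) atTop (𝓝 θ) ∧
      Tendsto (fun i => 1 + eps (loc 𝓕 i)) atTop (𝓝 ((1 + eps allG) ^ θ))) ∧
    (∀ θ : ℝ, 0 ≤ θ → θ ≤ 1 →
      Tendsto (fun D : ℕ => 1 + eps (coreLe D θ)) atTop (𝓝 ((1 + eps allG) ^ θ))) :=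
  ⟨fun 𝒜 h1 h2 h3 => ⟨irLim 𝒜, tendsto_ir h1, ir_law h1 h2 h3⟩,
    fun 𝓕 => ⟨_, loc_law 𝓕⟩, fun _ h0 h1 => core_law h0 h1⟩

end Pool.Agent.Results.MP_dad754_lc.RatioLaw
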