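import Pool.Agent.H21.IR.SpecTwo

/-!
# MP_dad754_lc: maximum independent set and the smallest eigenvalue

Let `c = 1 + eps allG` be the best exponential base of maximum independent set on all graphs
(`eps allG` is the number `ε*` of the problem) and `0 ≤ μ ≤ 1`. Let `spec μ δ` be the class of the
graphs for which there is a real `d ≥ 1 / δ` such that all degrees lie in `[d, (1 + δ) d]` and the
smallest eigenvalue of the adjacency matrix is at least `- (μ + δ) d`, and let `expa μ δ` be the
smaller class of the pseudo-random graphs: `|λ| ≤ (μ + δ) d` for all nontrivial eigenvalues if the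
graph is `d`-regular, in general the operator norm of `A - (d / n) J` is at most `(μ + δ) d`. Then

`1 + eps (spec μ δ) → c ^ (μ / (1 + μ))` and `1 + eps (expa μ δ) → c ^ (μ / (1 + μ))` as `δ → 0`.

Upper bound: Hoffman's bound for the largest independent set, made robust, and branching on large
degrees. Lower bound: the join of an independent set with `k = 2 h + 1` elements and a
`(p - k)`-regular circulant graph on `p` vertices is `p`-regular with nontrivial eigenvalues at most
`k` in absolute value; instances of bounded degree are written into the independent sets of its
blow-ups.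

Machine model: the structured stack programs `Prog` of `Pool.Agent.H80.Poly.Prog` (finitely many
stacks of bits; push, pop, sequence, if and while testing the top of a stack; the cost `t` in
`Ex p S S' t` is the number of elementary steps). The set of the `e ≥ 0` with `InTime 𝒢 (1 + e)` is
nonempty for every class (`Pool.Agent.H66.MB.inTime_of_gt`), so `eps 𝒢` is a true infimum.
-/

set_option autoImplicit false

namespace Pool.Agent.Results.MP_dad754_lc.SpectralLaw

open Filter Topology Pool.Agent.H66.MB Pool.Agent.H21.IR

/-- The best exponential base of maximum independent set on the nearly regular graphs of large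
degree whose smallest eigenvalue is at least `- (μ + δ) d`, and also on those all of whose nontrivial
eigenvalues are at most `(μ + δ) d` in absolute value, tends to `(1 + ε*) ^ (μ / (1 + μ))` as
`δ → 0`. -/
theorem result (μ : ℝ) (h0 : 0 ≤ μ) (h1 : μ ≤ 1) :
    Tendsto (fun δ : ℝ => 1 + eps (expa μ δ)) (𝓝[>] 0) (𝓝 ((1 + eps allG) ^ (μ / (1 + μ)))) ∧
    Tendsto (fun δ : ℝ => 1 + eps (spec μ δ)) (𝓝[>] 0) (𝓝 ((1 + eps allG) ^ (μ / (1 + μ)))) :=
  two_law h0 h1

end Pool.Agent.Results.MP_dad754_lc.SpectralLaw
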